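import Mathlib

set_option autoImplicit false

open scoped ZeroAtInfty Topology
open Filter

namespace Pool.Agent.Helper71.Sum

/-- index set -/
abbrev I := ℕ × ℕ

/-- the space `c_0(I)` -/
abbrev C := C₀(I, ℝ)

/-- functions tending to zero along `cofinite` as elements of `c_0` -/
noncomputable def mkC (f : I → ℝ) (hf : Tendsto f cofinite (𝓝 0)) : C :=
  ⟨⟨f, continuous_of_discreteTopology⟩, by
    rw [Filter.cocompact_eq_cofinite]; exact hf⟩

@[simp] lemma mkC_apply (f : I → ℝ) (hf : Tendsto f cofinite (𝓝 0)) (i : I) :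
    mkC f hf i = f i := rfl

lemma tendsto_C (f : C) : Tendsto f cofinite (𝓝 0) := by
  have h := zero_at_infty f
  rwa [Filter.cocompact_eq_cofinite] at h

lemma abs_apply_le (f : C) (i : I) : |f i| ≤ ‖f‖ := by
  have h := f.toBCF.norm_coe_le_norm i
  rwa [ZeroAtInftyContinuousMap.norm_toBCF_eq_norm, Real.norm_eq_abs] at h

lemma norm_le_C (f : C) {r : ℝ} (hr : 0 ≤ r) (h : ∀ i, |f i| ≤ r) : ‖f‖ ≤ r := by
  rw [← ZeroAtInftyContinuousMap.norm_toBCF_eq_norm]
  exact (BoundedContinuousFunction.norm_le hr).2 fun i => by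
    rw [Real.norm_eq_abs]; exact h i

lemma tendsto_of_finite_support (f : I → ℝ) (hf : (Function.support f).Finite) :
    Tendsto f cofinite (𝓝 0) := by
  apply tendsto_nhds_of_eventually_eq
  rw [Filter.eventually_cofinite]
  exact hf

/-- unit vectors -/
noncomputable def e (i : I) : C :=
  mkC (Pi.single i 1) (tendsto_of_finite_support _ (by
    apply (Set.finite_singleton i).subset
    intro k hk
    by_contra h
    apply hk
    exact Pi.single_eq_of_ne h _))

lemma e_apply (i k : I) : e i k = if k = i then 1 else 0 := by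
  unfold e
  rw [mkC_apply, Pi.single_apply]

/-- evaluation functional -/
noncomputable def ev (i : I) : C →L[ℝ] ℝ :=
  LinearMap.mkContinuous
    { toFun := fun f => f i
      map_add' := fun _ _ => rfl
      map_smul' := fun _ _ => rfl } 1 (fun f => by
        rw [one_mul]; exact abs_apply_le f i)

@[simp] lemma ev_apply (i : I) (f : C) : ev i f = f i := rfl

lemma sum_e_apply (F : Finset I) (g : I → ℝ) (k : I) :
    (∑ i ∈ F, g i • e i : C) k = if k ∈ F then g k else 0 := by
  rw [← ev_apply, map_sum]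
  simp [e_apply]

lemma norm_sum_e_le (F : Finset I) (g : I → ℝ) {r : ℝ} (hr : 0 ≤ r)
    (h : ∀ i ∈ F, |g i| ≤ r) : ‖(∑ i ∈ F, g i • e i : C)‖ ≤ r := by
  apply norm_le_C _ hr
  intro i
  rw [sum_e_apply]
  split_ifs with hi
  · exact h i hi
  · simpa using hr

lemma sum_abs_le (w : C →L[ℝ] ℝ) (F : Finset I) : ∑ i ∈ F, |w (e i)| ≤ ‖w‖ := by
  have h1 : ∑ i ∈ F, |w (e i)| = w (∑ i ∈ F, (SignType.sign (w (e i)) : ℝ) • e i) := by
    rw [map_sum]
    apply Finset.sum_congr rfl
    intro i _
    rw [map_smul, smul_eq_mul, sign_mul_self]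
  rw [h1]
  have h2 : ‖(∑ i ∈ F, (SignType.sign (w (e i)) : ℝ) • e i : C)‖ ≤ 1 := by
    apply norm_sum_e_le _ _ zero_le_one
    intro i _
    rcases lt_trichotomy (w (e i)) 0 with h | h | h
    · simp [sign_neg h]
    · simp [h]
    · simp [sign_pos h]
  calc w _ ≤ |w _| := le_abs_self _
    _ ≤ ‖w‖ * ‖(∑ i ∈ F, (SignType.sign (w (e i)) : ℝ) • e i : C)‖ := w.le_opNorm _
    _ ≤ ‖w‖ * 1 := by gcongr
    _ = ‖w‖ := mul_one _

lemma summable_abs (w : C →L[ℝ] ℝ) : Summable fun i => |w (e i)| :=
  summable_of_sum_le (fun _ => abs_nonneg _) (sum_abs_le w)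

lemma summable_coef (w : C →L[ℝ] ℝ) : Summable fun i => w (e i) :=
  (summable_abs w).of_abs

lemma hasSum_e (f : C) : HasSum (fun i => f i • e i) f := by
  rw [HasSum, Metric.tendsto_nhds]
  intro ε hε
  have h1 : {i | ¬ |f i| < ε / 2}.Finite := by
    have := (tendsto_C f).eventually (Metric.ball_mem_nhds 0 (half_pos hε))
    rw [Filter.eventually_cofinite] at this
    refine this.subset ?_
    intro i hi
    simpa [Real.dist_eq] using hi
  have h2 : ∀ᶠ F : Finset I in (SummationFilter.unconditional I).filter, h1.toFinset ⊆ F := by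
    rw [SummationFilter.unconditional_filter]
    exact Filter.eventually_ge_atTop _
  filter_upwards [h2] with F hF
  rw [dist_eq_norm]
  refine lt_of_le_of_lt (norm_le_C _ (half_pos hε).le ?_) (half_lt_self hε)
  intro i
  rw [ZeroAtInftyContinuousMap.sub_apply, sum_e_apply]
  split_ifs with hi
  · simp [(half_pos hε).le]
  · have : ¬ (¬ |f i| < ε / 2) := fun h => hi (hF (by simpa using h))
    push Not at this
    rw [zero_sub, abs_neg]; exact this.le

lemma hasSum_apply (w : C →L[ℝ] ℝ) (f : C) : HasSum (fun i => f i * w (e i)) (w f) := by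
  have h := w.hasSum (hasSum_e f)
  simpa [Function.comp_def] using h

end Pool.Agent.Helper71.Sum
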