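import Pool.Agent.Helper71.Sum.Key2

set_option autoImplicit false

open scoped ZeroAtInfty Topology
open Filter

namespace Pool.Agent.Helper71.Sum

section General
variable {X : Type} [NormedAddCommGroup X] [NormedSpace ℝ X]

/-- monotone sets of pairs -/
def Mono (A : Set (X × (X →L[ℝ] ℝ))) : Prop :=
  ∀ (x y : X) (a b : X →L[ℝ] ℝ), (x, a) ∈ A → (y, b) ∈ A → 0 ≤ (a - b) (x - y)

/-- maximality of a set of pairs: every monotonically related pair belongs to it -/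
def Maxi (A : Set (X × (X →L[ℝ] ℝ))) : Prop :=
  ∀ (z : X) (c : X →L[ℝ] ℝ),
    (∀ (x : X) (a : X →L[ℝ] ℝ), (x, a) ∈ A → 0 ≤ (c - a) (z - x)) → (z, c) ∈ A

lemma exists_maximal (T : Set (X × (X →L[ℝ] ℝ))) (hT : Mono T) :
    ∃ A, T ⊆ A ∧ Mono A ∧ Maxi A := by
  obtain ⟨A, hTA, hA⟩ := zorn_subset_nonempty {S : Set (X × (X →L[ℝ] ℝ)) | Mono S} (by
    intro c hc hchain hne
    refine ⟨⋃₀ c, ?_, fun s hs => Set.subset_sUnion_of_mem hs⟩
    rintro x y a b ⟨s, hs, hxs⟩ ⟨s', hs', hys⟩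
    rcases hchain.total hs hs' with h | h
    · exact hc hs' x y a b (h hxs) hys
    · exact hc hs x y a b hxs (h hys)) T hT
  refine ⟨A, hTA, hA.prop, ?_⟩
  intro z c hzc
  have hmono : Mono (insert (z, c) A) := by
    intro x y a b hx hy
    rcases Set.mem_insert_iff.1 hx with h1 | h1
    · rcases Set.mem_insert_iff.1 hy with h2 | h2
      · rw [Prod.mk.injEq] at h1 h2
        rw [h1.1, h1.2, h2.1, h2.2]; simp
      · rw [Prod.mk.injEq] at h1
        rw [h1.1, h1.2]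
        exact hzc y b h2
    · rcases Set.mem_insert_iff.1 hy with h2 | h2
      · rw [Prod.mk.injEq] at h2
        rw [h2.1, h2.2]
        have := hzc x a h1
        have h3 : (a - c) (x - z) = (c - a) (z - x) := by
          simp only [ContinuousLinearMap.sub_apply, map_sub]; ring
        rw [h3]; exact this
      · exact hA.prop x y a b h1 h2
  exact hA.le_of_ge hmono (Set.subset_insert _ _) (Set.mem_insert _ _)

end General

/-- the space of the counterexample -/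
abbrev X := E × ℝ

/-- last coordinate -/
noncomputable def lst : X →L[ℝ] ℝ := ContinuousLinearMap.snd ℝ E ℝ

/-- functional on the first part -/
noncomputable def fsf (c : E →L[ℝ] ℝ) : X →L[ℝ] ℝ := c.comp (ContinuousLinearMap.fst ℝ E ℝ)

@[simp] lemma lst_apply (v : X) : lst v = v.2 := rfl
@[simp] lemma fsf_apply (c : E →L[ℝ] ℝ) (v : X) : fsf c v = c v.1 := rfl

/-- the part at height `1` -/
def Tplus : Set (X × (X →L[ℝ] ℝ)) :=
  {q | ∃ p ∈ G, ∃ t : ℝ, nrm p.2 ^ 2 / 4 ≤ t ∧ q = ((p.1, 1), fsf p.2 + t • lst)}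

/-- the part at height `-1` -/
def Tminus : Set (X × (X →L[ℝ] ℝ)) :=
  {q | ∃ b : C, ∃ t : ℝ, t ≤ -(phi b / 2) ∧ q = (((b, 0), -1), t • lst)}

lemma cross (p : E × (E →L[ℝ] ℝ)) (hp : p ∈ G) (t : ℝ) (ht : nrm p.2 ^ 2 / 4 ≤ t)
    (b : C) (t' : ℝ) (ht' : t' ≤ -(phi b / 2)) :
    0 ≤ ((fsf p.2 + t • lst) - t' • lst) (((p.1, 1) : X) - ((b, 0), -1)) := by
  have h1 := fenchel p.2 b
  have h2 := skew hp
  have h3 : ((fsf p.2 + t • lst) - t' • lst) (((p.1, 1) : X) - ((b, 0), -1))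
      = p.2 p.1 - p.2 (b, 0) + (t - t') * 2 := by
    simp only [ContinuousLinearMap.sub_apply, ContinuousLinearMap.add_apply,
      ContinuousLinearMap.smul_apply, fsf_apply, lst_apply, Prod.fst_sub, Prod.snd_sub, map_sub,
      smul_eq_mul]
    ring
  rw [h3, h2]
  linarith

lemma mono_T : Mono (Tplus ∪ Tminus) := by
  rintro x y a b (⟨p, hp, t, ht, h⟩ | ⟨u, t, ht, h⟩) (⟨p', hp', t', ht', h'⟩ | ⟨u', t', ht', h'⟩)
  · rw [Prod.mk.injEq] at h h'
    rw [h.1, h.2, h'.1, h'.2]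
    have h4 : p.2 (p.1 - p'.1) - p'.2 (p.1 - p'.1) = 0 := by
      have h5 := skew (G.add_mem hp (G.smul_mem (-1 : ℝ) hp'))
      simp only [Prod.snd_add, Prod.fst_add, Prod.smul_snd, Prod.smul_fst,
        ContinuousLinearMap.add_apply, ContinuousLinearMap.smul_apply, map_add, map_smul,
        smul_eq_mul] at h5
      simp only [map_sub]
      linarith
    simp only [ContinuousLinearMap.sub_apply, ContinuousLinearMap.add_apply,
      ContinuousLinearMap.smul_apply, fsf_apply, lst_apply, Prod.fst_sub, Prod.snd_sub,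
      smul_eq_mul]
    rw [sub_self, mul_zero, mul_zero, add_zero, add_zero, h4]
  · rw [Prod.mk.injEq] at h h'
    rw [h.1, h.2, h'.1, h'.2]
    exact cross p hp t ht u' t' ht'
  · rw [Prod.mk.injEq] at h h'
    rw [h.1, h.2, h'.1, h'.2]
    have := cross p' hp' t' ht' u t ht
    have h3 : (t • lst - (fsf p'.2 + t' • lst)) ((((u, 0), -1) : X) - (p'.1, 1))
        = ((fsf p'.2 + t' • lst) - t • lst) (((p'.1, 1) : X) - ((u, 0), -1)) := by
      simp only [ContinuousLinearMap.sub_apply, map_sub]; ring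
    rw [h3]; exact this
  · rw [Prod.mk.injEq] at h h'
    rw [h.1, h.2, h'.1, h'.2]
    simp

/-- a pair monotonically related to `T_0` has no last coordinate in `(-1, 1)` -/
theorem gap (x : X) (c : X →L[ℝ] ℝ)
    (h : ∀ (y : X) (a : X →L[ℝ] ℝ), (y, a) ∈ Tplus ∪ Tminus → 0 ≤ (c - a) (x - y)) :
    ¬ (-1 < x.2 ∧ x.2 < 1) := by
  rintro ⟨hs1, hs2⟩
  set W : E →L[ℝ] ℝ := c.comp (ContinuousLinearMap.inl ℝ E ℝ) with hW
  have hc : ∀ v : X, c v = W v.1 + v.2 * c (0, 1) := by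
    intro v
    have h1 : v = ((v.1, 0) : X) + v.2 • ((0, 1) : X) := by
      ext <;> simp
    conv_lhs => rw [h1]
    rw [map_add, map_smul, smul_eq_mul]; rfl
  refine key x.1 W ((1 + x.2) / 2) (c (0, 1)) (by linarith) (by linarith) ?_ ?_
  · intro b
    have h1 := h (((b, 0), -1) : X) ((-(phi b / 2)) • lst) (Or.inr ⟨b, _, le_rfl, rfl⟩)
    rw [ContinuousLinearMap.sub_apply, hc, ContinuousLinearMap.smul_apply, lst_apply,
      Prod.fst_sub, Prod.snd_sub, smul_eq_mul] at h1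
    simp only at h1
    linarith
  · intro p hp
    have h1 := h ((p.1, 1) : X) (fsf p.2 + (nrm p.2 ^ 2 / 4) • lst)
      (Or.inl ⟨p, hp, _, le_rfl, rfl⟩)
    rw [ContinuousLinearMap.sub_apply, hc, ContinuousLinearMap.add_apply,
      ContinuousLinearMap.smul_apply, lst_apply, fsf_apply,
      Prod.fst_sub, Prod.snd_sub, smul_eq_mul] at h1
    simp only at h1
    rw [ContinuousLinearMap.sub_apply]
    linarith

/-- the normal cone operator of the half space `{v | v.2 ≤ 0}` -/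
def NB : Set (X × (X →L[ℝ] ℝ)) :=
  {q | (q.1.2 < 0 ∧ q.2 = 0) ∨ (q.1.2 = 0 ∧ ∃ r : ℝ, 0 ≤ r ∧ q.2 = r • lst)}

lemma mono_NB : Mono NB := by
  rintro x y a b (⟨h1, h2⟩ | ⟨h1, r, hr, h2⟩) (⟨h3, h4⟩ | ⟨h3, r', hr', h4⟩)
  · simp only at h1 h2 h3 h4
    rw [h2, h4]; simp
  · simp only at h1 h2 h3 h4
    rw [h2, h4]
    simp only [ContinuousLinearMap.sub_apply, ContinuousLinearMap.smul_apply, lst_apply,
      Prod.snd_sub, smul_eq_mul, ContinuousLinearMap.zero_apply, h3]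
    nlinarith
  · simp only at h1 h2 h3 h4
    rw [h2, h4]
    simp only [ContinuousLinearMap.sub_apply, ContinuousLinearMap.smul_apply, lst_apply,
      Prod.snd_sub, smul_eq_mul, ContinuousLinearMap.zero_apply, h1]
    nlinarith
  · simp only at h1 h2 h3 h4
    rw [h2, h4]
    simp only [ContinuousLinearMap.sub_apply, ContinuousLinearMap.smul_apply, lst_apply,
      Prod.snd_sub, smul_eq_mul, h1, h3]
    simp

lemma maxi_NB : Maxi NB := by
  intro z c h
  -- first `z.2 ≤ 0`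
  have hz : z.2 ≤ 0 := by
    by_contra hne
    push Not at hne
    have h1 : ∀ r : ℝ, 0 ≤ r → r * z.2 ≤ c (z - 0) := by
      intro r hr
      have := h 0 (r • lst) (Or.inr ⟨rfl, r, hr, rfl⟩)
      rw [ContinuousLinearMap.sub_apply, ContinuousLinearMap.smul_apply, lst_apply,
        sub_zero, smul_eq_mul] at this
      rw [sub_zero]
      linarith
    have h2 := h1 ((|c (z - 0)| + 1) / z.2) (by positivity)
    rw [div_mul_cancel₀ _ hne.ne'] at h2
    have := le_abs_self (c (z - 0))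
    linarith
  have h1 : ∀ v : X, z.2 < v.2 → 0 ≤ c v := by
    intro v hv
    have := h (z - v) 0 (Or.inl ⟨by simpa using hv, rfl⟩)
    simpa using this
  rcases hz.lt_or_eq with hlt | heq
  · left
    refine ⟨hlt, ?_⟩
    have h3 : ∀ v : X, v.2 = 0 → c v = 0 := by
      intro v hv
      have a1 := h1 v (by rw [hv]; exact hlt)
      have a2 := h1 (-v) (by rw [Prod.snd_neg, hv, neg_zero]; exact hlt)
      rw [map_neg] at a2
      linarith
    have h4 : c (0, 1) = 0 := by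
      have a1 := h1 ((-z.2 / 2) • (0, 1)) (by
        simp only [Prod.smul_snd, smul_eq_mul, mul_one]; linarith)
      have a2 := h1 ((z.2 / 2) • (0, 1)) (by
        simp only [Prod.smul_snd, smul_eq_mul, mul_one]; linarith)
      rw [map_smul, smul_eq_mul] at a1 a2
      nlinarith
    apply ContinuousLinearMap.ext
    intro v
    have hv : v = ((v.1, 0) : X) + v.2 • ((0, 1) : X) := by
      ext <;> simp
    calc c v = c (((v.1, 0) : X) + v.2 • ((0, 1) : X)) := by rw [← hv]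
      _ = 0 := by rw [map_add, map_smul, h3 _ rfl, h4]; simp
      _ = (0 : X →L[ℝ] ℝ) v := rfl
  · right
    refine ⟨heq, c (0, 1), h1 (0, 1) (by simp [heq]), ?_⟩
    have h3 : ∀ v : E, c (v, 0) = 0 := by
      have key : ∀ (v : E) (r : ℝ), 0 ≤ r * c (v, 0) + c (0, 1) := by
        intro v r
        have := h1 (r • (v, 0) + (0, 1)) (by simp [heq])
        rwa [map_add, map_smul, smul_eq_mul] at this
      intro v
      by_contra hne
      have := key v (-(|c (0, 1)| + 1) / c (v, 0))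
      rw [div_mul_cancel₀ _ hne] at this
      have := le_abs_self (c (0, 1))
      linarith
    apply ContinuousLinearMap.ext
    intro v
    have hv : v = ((v.1, 0) : X) + v.2 • ((0, 1) : X) := by
      ext <;> simp
    calc c v = c (((v.1, 0) : X) + v.2 • ((0, 1) : X)) := by rw [← hv]
      _ = c (0, 1) * v.2 := by rw [map_add, map_smul, h3, smul_eq_mul]; ring
      _ = (c (0, 1) • lst) v := by simp

/-- there is a maximally monotone set whose domain meets the half spaces `{v.2 ≤ -1}` and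
`{1 ≤ v.2}` but not the slab between them -/
theorem exists_A : ∃ A : Set (X × (X →L[ℝ] ℝ)), Tplus ∪ Tminus ⊆ A ∧ Mono A ∧ Maxi A ∧
    ∀ (x : X) (a : X →L[ℝ] ℝ), (x, a) ∈ A → x.2 ≤ -1 ∨ 1 ≤ x.2 := by
  obtain ⟨A, hT, hm, hM⟩ := exists_maximal _ mono_T
  refine ⟨A, hT, hm, hM, ?_⟩
  intro x a hx
  have := gap x a (fun y b hy => hm x y a b hx (hT hy))
  by_contra h
  push Not at h
  exact this h

theorem not_sum :
    ¬ (∀ (X : Type) [NormedAddCommGroup X] [NormedSpace ℝ X] [CompleteSpace X]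
      (A B : Set (X × (X →L[ℝ] ℝ))),
      (∀ (x y : X) (a b : X →L[ℝ] ℝ), (x, a) ∈ A → (y, b) ∈ A → 0 ≤ (a - b) (x - y)) →
      (∀ (z : X) (c : X →L[ℝ] ℝ),
          (∀ (x : X) (a : X →L[ℝ] ℝ), (x, a) ∈ A → 0 ≤ (c - a) (z - x)) → (z, c) ∈ A) →
      (∀ (x y : X) (a b : X →L[ℝ] ℝ), (x, a) ∈ B → (y, b) ∈ B → 0 ≤ (a - b) (x - y)) →
      (∀ (z : X) (c : X →L[ℝ] ℝ),
          (∀ (x : X) (a : X →L[ℝ] ℝ), (x, a) ∈ B → 0 ≤ (c - a) (z - x)) → (z, c) ∈ B) →
      ({x : X | ∃ a : X →L[ℝ] ℝ, (x, a) ∈ A} ∩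
          interior {x : X | ∃ b : X →L[ℝ] ℝ, (x, b) ∈ B}).Nonempty →
      (∀ (x y : X) (a b a' b' : X →L[ℝ] ℝ),
          (x, a) ∈ A → (x, b) ∈ B → (y, a') ∈ A → (y, b') ∈ B →
          0 ≤ ((a + b) - (a' + b')) (x - y)) ∧
      (∀ (z : X) (c : X →L[ℝ] ℝ),
          (∀ (x : X) (a b : X →L[ℝ] ℝ), (x, a) ∈ A → (x, b) ∈ B →
              0 ≤ (c - (a + b)) (z - x)) →
          ∃ (a b : X →L[ℝ] ℝ), (z, a) ∈ A ∧ (z, b) ∈ B ∧ c = a + b)) := by
  intro H
  obtain ⟨A, hT, hm, hM, hgap⟩ := exists_A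
  have hpt1 : ((((0 : C), (0 : C)), (-1 : ℝ)), (-(phi 0 / 2)) • lst) ∈ A :=
    hT (Or.inr ⟨0, _, le_rfl, rfl⟩)
  have hpt2 : (((0 : E), (1 : ℝ)), fsf 0 + (nrm 0 ^ 2 / 4) • lst) ∈ A :=
    hT (Or.inl ⟨0, G.zero_mem, _, le_rfl, rfl⟩)
  have hne : ({x : X | ∃ a : X →L[ℝ] ℝ, (x, a) ∈ A} ∩
      interior {x : X | ∃ b : X →L[ℝ] ℝ, (x, b) ∈ NB}).Nonempty := by
    refine ⟨(((0 : C), (0 : C)), (-1 : ℝ)), ⟨_, hpt1⟩, ?_⟩
    have hopen : IsOpen {x : X | x.2 < 0} := isOpen_lt continuous_snd continuous_const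
    have hsub : {x : X | x.2 < 0} ⊆ {x : X | ∃ b : X →L[ℝ] ℝ, (x, b) ∈ NB} :=
      fun x hx => ⟨0, Or.inl ⟨hx, rfl⟩⟩
    exact interior_maximal hsub hopen (by simp)
  obtain ⟨-, h2⟩ := H X A NB hm hM mono_NB maxi_NB hne
  obtain ⟨a, b, -, hb, -⟩ := h2 ((0 : E), (1 : ℝ)) (fsf 0 + (nrm 0 ^ 2 / 4) • lst) (by
    intro x a b ha hb
    have hx : x.2 ≤ 0 := by
      rcases hb with ⟨h, -⟩ | ⟨h, -⟩
      · exact h.le
      · exact h.le
    have hx1 : x.2 ≤ -1 := by
      rcases hgap x a ha with h | h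
      · exact h
      · linarith
    have hb0 : b = 0 := by
      rcases hb with ⟨-, h⟩ | ⟨h, -⟩
      · exact h
      · simp only at h; linarith
    rw [hb0, add_zero]
    exact hm _ _ _ _ hpt2 ha)
  rcases hb with ⟨h, -⟩ | ⟨h, -⟩
  · simp only at h; linarith
  · simp only at h; linarith

end Pool.Agent.Helper71.Sum
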