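import Pool.Agent.Helper71.Sum.Basic

set_option autoImplicit false

open scoped ZeroAtInfty Topology
open Filter

namespace Pool.Agent.Helper71.Sum

/-- `c_0(I) × c_0(I)` -/
abbrev E := C × C

/-- weights of the lines -/
noncomputable def kap (j : ℕ) : ℝ := (1 / 2) ^ j

lemma kap_pos (j : ℕ) : 0 < kap j := by unfold kap; positivity

/-- the shift point `x_0 ∈ ℓ¹(I)` -/
noncomputable def x0 (i : I) : ℝ := if i.2 = 0 then kap i.1 else 0

lemma x0_nonneg (i : I) : 0 ≤ x0 i := by
  unfold x0; split_ifs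
  · exact (kap_pos _).le
  · exact le_rfl

lemma summable_x0 : Summable x0 := by
  have hinj : Function.Injective (fun j : ℕ => ((j, 0) : I)) := by
    intro a b h
    simpa using h
  rw [← hinj.summable_iff]
  · have : (x0 ∘ fun j : ℕ => ((j, 0) : I)) = fun j => (1 / 2 : ℝ) ^ j := by
      funext j; simp [x0, kap]
    rw [this]
    exact summable_geometric_two
  · rintro ⟨j, n⟩ h
    have hn : n ≠ 0 := by
      rintro rfl
      exact h ⟨j, rfl⟩
    simp [x0, hn]

/-- first coordinates, with the convention that index `0` gives `0` -/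
noncomputable def E1 (j : ℕ) : ℕ → (E →L[ℝ] ℝ)
  | 0 => 0
  | (n + 1) => (ev (j, n)).comp (ContinuousLinearMap.fst ℝ C C)

/-- second coordinates, with the convention that index `0` gives `0` -/
noncomputable def E2 (j : ℕ) : ℕ → (E →L[ℝ] ℝ)
  | 0 => 0
  | (n + 1) => (ev (j, n)).comp (ContinuousLinearMap.snd ℝ C C)

@[simp] lemma E1_zero (j : ℕ) : E1 j 0 = 0 := rfl
@[simp] lemma E2_zero (j : ℕ) : E2 j 0 = 0 := rfl
@[simp] lemma E1_succ (j n : ℕ) (a : E) : E1 j (n + 1) a = a.1 (j, n) := rfl
@[simp] lemma E2_succ (j n : ℕ) (a : E) : E2 j (n + 1) a = a.2 (j, n) := rfl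

lemma E1_e (j k : ℕ) (i : I) (g : C) :
    E1 j k (e i, g) = if i.1 = j ∧ i.2 + 1 = k then 1 else 0 := by
  cases k with
  | zero => simp
  | succ k =>
    rw [E1_succ, e_apply]
    have : (j, k) = i ↔ (i.1 = j ∧ i.2 + 1 = k + 1) := by
      rw [Prod.ext_iff]; constructor
      · rintro ⟨h1, h2⟩; exact ⟨h1.symm, by simpa using h2.symm⟩
      · rintro ⟨h1, h2⟩; exact ⟨h1.symm, by simpa using h2.symm⟩
    simp only [this]

lemma E2_e (j k : ℕ) (i : I) (g : C) :
    E2 j k (g, e i) = if i.1 = j ∧ i.2 + 1 = k then 1 else 0 := by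
  cases k with
  | zero => simp
  | succ k =>
    rw [E2_succ, e_apply]
    have : (j, k) = i ↔ (i.1 = j ∧ i.2 + 1 = k + 1) := by
      rw [Prod.ext_iff]; constructor
      · rintro ⟨h1, h2⟩; exact ⟨h1.symm, by simpa using h2.symm⟩
      · rintro ⟨h1, h2⟩; exact ⟨h1.symm, by simpa using h2.symm⟩
    simp only [this]

lemma E1_snd (j k : ℕ) (g : C) : E1 j k (0, g) = 0 := by
  cases k with
  | zero => simp
  | succ k => rw [E1_succ]; rfl

lemma E2_fst (j k : ℕ) (g : C) : E2 j k (g, 0) = 0 := by
  cases k with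
  | zero => simp
  | succ k => rw [E2_succ]; rfl

/-- value of the skew operator on the first unit vectors -/
noncomputable def dg (i : I) : E →L[ℝ] ℝ :=
  (kap i.1 / 2) • (E1 i.1 (i.2 + 2) - E1 i.1 i.2) + (E2 i.1 (i.2 + 1) - E2 i.1 i.2)

/-- value of the skew operator on the second unit vectors -/
noncomputable def dh (i : I) : E →L[ℝ] ℝ := E1 i.1 (i.2 + 2) - E1 i.1 (i.2 + 1)

/-- unit vectors with the values of the operator -/
noncomputable def gG (i : I) : E × (E →L[ℝ] ℝ) := ((e i, 0), dg i)
/-- unit vectors with the values of the operator -/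
noncomputable def gH (i : I) : E × (E →L[ℝ] ℝ) := ((0, e i), dh i)

/-- the graph of the skew operator -/
noncomputable def G : Submodule ℝ (E × (E →L[ℝ] ℝ)) :=
  Submodule.span ℝ (Set.range gG ∪ Set.range gH)

lemma gG_mem (i : I) : gG i ∈ G := Submodule.subset_span (Or.inl ⟨i, rfl⟩)
lemma gH_mem (i : I) : gH i ∈ G := Submodule.subset_span (Or.inr ⟨i, rfl⟩)

lemma skew_gen : ∀ p ∈ (Set.range gG ∪ Set.range gH), ∀ q ∈ (Set.range gG ∪ Set.range gH),
    p.2 q.1 + q.2 p.1 = 0 := by
  rintro p (⟨i, rfl⟩ | ⟨i, rfl⟩) q (⟨k, rfl⟩ | ⟨k, rfl⟩)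
  · simp only [gG, dg, ContinuousLinearMap.add_apply, ContinuousLinearMap.smul_apply,
      ContinuousLinearMap.sub_apply, E1_e, E2_fst, smul_eq_mul]
    by_cases h : i.1 = k.1
    · simp only [h, true_and]
      split_ifs <;> first | (exfalso; omega) | ring
    · have h' : ¬ k.1 = i.1 := fun h1 => h h1.symm
      simp [h, h']
  · simp only [gG, gH, dg, dh, ContinuousLinearMap.add_apply, ContinuousLinearMap.smul_apply,
      ContinuousLinearMap.sub_apply, E1_e, E2_e, E1_snd, smul_eq_mul]
    by_cases h : i.1 = k.1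
    · simp only [h, true_and]
      split_ifs <;> first | (exfalso; omega) | ring
    · have h' : ¬ k.1 = i.1 := fun h1 => h h1.symm
      simp [h, h']
  · simp only [gG, gH, dg, dh, ContinuousLinearMap.add_apply, ContinuousLinearMap.smul_apply,
      ContinuousLinearMap.sub_apply, E1_e, E2_e, E1_snd, smul_eq_mul]
    by_cases h : i.1 = k.1
    · simp only [h, true_and]
      split_ifs <;> first | (exfalso; omega) | ring
    · have h' : ¬ k.1 = i.1 := fun h1 => h h1.symm
      simp [h, h']
  · simp [gH, dh, E1_snd]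

lemma skew {p : E × (E →L[ℝ] ℝ)} (hp : p ∈ G) : p.2 p.1 = 0 := by
  have key : ∀ p ∈ G, ∀ q ∈ G, p.2 q.1 + q.2 p.1 = 0 := by
    intro p hp q hq
    unfold G at hp hq
    induction hp, hq using Submodule.span_induction₂ with
    | mem_mem x y hx hy => exact skew_gen x hx y hy
    | zero_left y hy => simp
    | zero_right x hx => simp
    | add_left x y z hx hy hz h1 h2 =>
      simp only [Prod.snd_add, Prod.fst_add, ContinuousLinearMap.add_apply, map_add]
      linear_combination h1 + h2
    | add_right x y z hx hy hz h1 h2 =>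
      simp only [Prod.snd_add, Prod.fst_add, ContinuousLinearMap.add_apply, map_add]
      linear_combination h1 + h2
    | smul_left r x y hx hy h =>
      simp only [Prod.smul_snd, Prod.smul_fst, ContinuousLinearMap.smul_apply, map_smul,
        smul_eq_mul]
      linear_combination r * h
    | smul_right r x y hx hy h =>
      simp only [Prod.smul_snd, Prod.smul_fst, ContinuousLinearMap.smul_apply, map_smul,
        smul_eq_mul]
      linear_combination r * h
  have := key p hp p hp
  linarith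

lemma exists_pa (j n : ℕ) : ∃ p ∈ G, ∀ b : C, p.2 (b, 0) = b (j, n) := by
  induction n with
  | zero =>
    have hm : (2 / kap j) • gG (j, 0) + (-1 : ℝ) • gH (j, 0) ∈ G :=
      G.add_mem (G.smul_mem _ (gG_mem _)) (G.smul_mem _ (gH_mem _))
    refine ⟨_, hm, ?_⟩
    intro b
    have hk := (kap_pos j).ne'
    have e1 : E1 j (0 + 2) (b, 0) = b (j, 1) := rfl
    have e2 : E1 j (0 + 1) (b, 0) = b (j, 0) := rfl
    simp only [gG, gH, dg, dh, Prod.snd_add, Prod.smul_snd, ContinuousLinearMap.sub_apply,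
      ContinuousLinearMap.smul_apply, ContinuousLinearMap.add_apply, E2_fst, smul_eq_mul,
      E1_zero, e1, e2, ContinuousLinearMap.zero_apply]
    field_simp
    ring
  | succ n ih =>
    obtain ⟨p, hp, h⟩ := ih
    refine ⟨p + gH (j, n), G.add_mem hp (gH_mem _), ?_⟩
    intro b
    simp only [gH, dh, Prod.snd_add, ContinuousLinearMap.add_apply, h,
      ContinuousLinearMap.sub_apply]
    rw [show n + 2 = (n + 1) + 1 from rfl, E1_succ, E1_succ]
    ring

end Pool.Agent.Helper71.Sum
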