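import Mathlib

set_option autoImplicit false

open scoped Topology
open Filter

namespace Pool.Agent.Helper71.Sum

/-- one line of the counterexample: telescoping of the skew form -/
lemma line (κ : ℝ) (x z w0 w1 : ℕ → ℝ) (hx0 : x 0 = 0) (hz0 : z 0 = 0)
    (h1 : ∀ n, w1 n = x (n + 2) - x (n + 1))
    (h0 : ∀ n, w0 n = κ / 2 * (x (n + 2) - x n) - (z (n + 1) - z n))
    (hz : Tendsto z atTop (𝓝 0)) (hw1 : Summable fun n => |w1 n|) (hw0 : Summable w0)
    (hV : Summable fun n => x (n + 1) * w0 n - z (n + 1) * w1 n) :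
    ∃ t : ℝ, (∑' n, (x (n + 1) * w0 n - z (n + 1) * w1 n) = κ / 2 * t ^ 2) ∧
      (∑' n, w0 n = κ / 2 * (2 * t - x 1)) ∧
      (t = 0 → ∀ n, |x (n + 1)| ≤ ∑' n, |w1 n|) := by
  have hsum1 : ∀ N, ∑ n ∈ Finset.range N, w1 n = x (N + 1) - x 1 := by
    intro N
    induction N with
    | zero => simp
    | succ N ih => rw [Finset.sum_range_succ, ih, h1 N]; ring
  have hlim1 : Tendsto (fun N => x (N + 1)) atTop (𝓝 (∑' n, w1 n + x 1)) := by
    have h2 := (hw1.of_abs.hasSum.tendsto_sum_nat).add_const (x 1)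
    refine h2.congr ?_
    intro N
    rw [hsum1]; ring
  set t : ℝ := ∑' n, w1 n + x 1 with ht
  have hlim : Tendsto x atTop (𝓝 t) := (tendsto_add_atTop_iff_nat 1).1 hlim1
  refine ⟨t, ?_, ?_, ?_⟩
  · have hs : ∀ N, ∑ n ∈ Finset.range N, (x (n + 1) * w0 n - z (n + 1) * w1 n)
        = κ / 2 * (x N * x (N + 1)) - z N * x (N + 1) := by
      intro N
      induction N with
      | zero => simp [hx0, hz0]
      | succ N ih => rw [Finset.sum_range_succ, ih, h1 N, h0 N]; ring
    have hl : Tendsto (fun N => κ / 2 * (x N * x (N + 1)) - z N * x (N + 1)) atTop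
        (𝓝 (κ / 2 * (t * t) - 0 * t)) :=
      ((hlim.mul hlim1).const_mul _).sub (hz.mul hlim1)
    have := tendsto_nhds_unique (hV.hasSum.tendsto_sum_nat) (hl.congr fun N => (hs N).symm)
    rw [this]; ring
  · have hs : ∀ N, ∑ n ∈ Finset.range N, w0 n
        = κ / 2 * (x (N + 1) + x N - x 1) - z N := by
      intro N
      induction N with
      | zero => simp [hx0, hz0]
      | succ N ih => rw [Finset.sum_range_succ, ih, h0 N]; ring
    have hl : Tendsto (fun N => κ / 2 * (x (N + 1) + x N - x 1) - z N) atTop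
        (𝓝 (κ / 2 * (t + t - x 1) - 0)) :=
      (((hlim1.add hlim).sub_const _).const_mul _).sub hz
    have := tendsto_nhds_unique (hw0.hasSum.tendsto_sum_nat) (hl.congr fun N => (hs N).symm)
    rw [this]; ring
  · intro ht0 n
    have hb : ∀ N, |x (n + 1)| ≤ |x (n + 1 + N)| + ∑' n, |w1 n| := by
      intro N
      have h3 : ∀ N, x (n + 1 + N) - x (n + 1) = ∑ m ∈ Finset.range N, w1 (n + m) := by
        intro N
        induction N with
        | zero => simp
        | succ N ih =>
          rw [Finset.sum_range_succ, ← ih, h1]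
          rw [show n + 1 + (N + 1) = n + N + 2 by ring, show n + 1 + N = n + N + 1 by ring]
          ring
      have h4 : |∑ m ∈ Finset.range N, w1 (n + m)| ≤ ∑' n, |w1 n| := by
        calc |∑ m ∈ Finset.range N, w1 (n + m)| ≤ ∑ m ∈ Finset.range N, |w1 (n + m)| :=
              Finset.abs_sum_le_sum_abs _ _
          _ = ∑ m ∈ (Finset.range N).map (addLeftEmbedding n), |w1 m| := by
              rw [Finset.sum_map]; rfl
          _ ≤ ∑' n, |w1 n| := hw1.sum_le_tsum _ (fun _ _ => abs_nonneg _)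
      have h5 : x (n + 1) = x (n + 1 + N) - ∑ m ∈ Finset.range N, w1 (n + m) := by
        rw [← h3]; ring
      calc |x (n + 1)| = |x (n + 1 + N) - ∑ m ∈ Finset.range N, w1 (n + m)| := by rw [← h5]
        _ ≤ |x (n + 1 + N)| + |∑ m ∈ Finset.range N, w1 (n + m)| := abs_sub _ _
        _ ≤ _ := by gcongr
    have hl : Tendsto (fun N => |x (n + 1 + N)| + ∑' n, |w1 n|) atTop
        (𝓝 (|t| + ∑' n, |w1 n|)) := by
      have h6 : Tendsto (fun N => x (n + 1 + N)) atTop (𝓝 t) := by
        have := (tendsto_add_atTop_iff_nat (n + 1)).2 hlim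
        refine this.congr fun N => by rw [add_comm]
      exact h6.abs.add_const _
    have := ge_of_tendsto' hl hb
    rwa [ht0, abs_zero, zero_add] at this

end Pool.Agent.Helper71.Sum
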