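import Pool.Agent.Helper71.Sum.Graph
import Pool.Agent.Helper71.Sum.Line

set_option autoImplicit false

open scoped ZeroAtInfty Topology
open Filter

namespace Pool.Agent.Helper71.Sum

lemma summable1 (c : E →L[ℝ] ℝ) : Summable fun i => |c (e i, 0)| :=
  summable_abs (c.comp (ContinuousLinearMap.inl ℝ C C))

lemma summable2 (c : E →L[ℝ] ℝ) : Summable fun i => |c (0, e i)| :=
  summable_abs (c.comp (ContinuousLinearMap.inr ℝ C C))

lemma hasSum1 (c : E →L[ℝ] ℝ) (f : C) : HasSum (fun i => f i * c (e i, 0)) (c (f, 0)) :=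
  hasSum_apply (c.comp (ContinuousLinearMap.inl ℝ C C)) f

lemma hasSum2 (c : E →L[ℝ] ℝ) (f : C) : HasSum (fun i => f i * c (0, e i)) (c (0, f)) :=
  hasSum_apply (c.comp (ContinuousLinearMap.inr ℝ C C)) f

/-- the `ℓ¹` norm of the first coefficients shifted by `x_0` -/
noncomputable def nrm (c : E →L[ℝ] ℝ) : ℝ := ∑' i, |c (e i, 0) + x0 i|

/-- the convex function `φ` -/
noncomputable def phi (b : C) : ℝ := ‖b‖ ^ 2 / 2 - ∑' i, x0 i * b i

lemma nrm_nonneg (c : E →L[ℝ] ℝ) : 0 ≤ nrm c := tsum_nonneg fun _ => abs_nonneg _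

lemma summable_nrm (c : E →L[ℝ] ℝ) : Summable fun i => |c (e i, 0) + x0 i| := by
  refine Summable.of_nonneg_of_le (fun _ => abs_nonneg _) (fun i => ?_)
    ((summable1 c).add summable_x0)
  calc |c (e i, 0) + x0 i| ≤ |c (e i, 0)| + |x0 i| := abs_add_le _ _
    _ = |c (e i, 0)| + x0 i := by rw [abs_of_nonneg (x0_nonneg i)]

lemma summable_x0_mul (f : I → ℝ) (K : ℝ) (hf : ∀ i, |f i| ≤ K) :
    Summable fun i => x0 i * f i := by
  refine Summable.of_norm_bounded (summable_x0.mul_right K) (fun i => ?_)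
  rw [Real.norm_eq_abs, abs_mul, abs_of_nonneg (x0_nonneg i)]
  exact mul_le_mul_of_nonneg_left (hf i) (x0_nonneg i)

lemma fenchel (c : E →L[ℝ] ℝ) (b : C) : c (b, 0) ≤ phi b + nrm c ^ 2 / 2 := by
  have h1 := hasSum1 c b
  have h2 := (summable_x0_mul b ‖b‖ (abs_apply_le b)).hasSum
  have h3 := h1.add h2
  have h4 : HasSum (fun i => ‖b‖ * |c (e i, 0) + x0 i|) (‖b‖ * nrm c) :=
    (summable_nrm c).hasSum.mul_left _
  have h5 : c (b, 0) + ∑' i, x0 i * b i ≤ ‖b‖ * nrm c := by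
    refine hasSum_le (fun i => ?_) h3 h4
    have : b i * c (e i, 0) + x0 i * b i = b i * (c (e i, 0) + x0 i) := by ring
    rw [this]
    calc b i * (c (e i, 0) + x0 i) ≤ |b i * (c (e i, 0) + x0 i)| := le_abs_self _
      _ = |b i| * |c (e i, 0) + x0 i| := abs_mul _ _
      _ ≤ ‖b‖ * |c (e i, 0) + x0 i| :=
        mul_le_mul_of_nonneg_right (abs_apply_le b i) (abs_nonneg _)
  unfold phi
  nlinarith [sq_nonneg (‖b‖ - nrm c)]

/-- the functional `ℓ(a)` -/
noncomputable def ell (Y : E) (W : E →L[ℝ] ℝ) (p : E × (E →L[ℝ] ℝ)) : ℝ := p.2 Y + W p.1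

lemma ell_add (Y : E) (W : E →L[ℝ] ℝ) (p q : E × (E →L[ℝ] ℝ)) :
    ell Y W (p + q) = ell Y W p + ell Y W q := by
  unfold ell
  simp only [Prod.snd_add, Prod.fst_add, ContinuousLinearMap.add_apply, map_add]
  ring

lemma ell_smul (Y : E) (W : E →L[ℝ] ℝ) (r : ℝ) (p : E × (E →L[ℝ] ℝ)) :
    ell Y W (r • p) = r * ell Y W p := by
  unfold ell
  simp only [Prod.smul_snd, Prod.smul_fst, ContinuousLinearMap.smul_apply, map_smul, smul_eq_mul]
  ring

lemma ell_sum (Y : E) (W : E →L[ℝ] ℝ) (F : Finset I) (g : I → ℝ)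
    (p : I → E × (E →L[ℝ] ℝ)) :
    ell Y W (∑ k ∈ F, g k • p k) = ∑ k ∈ F, g k * ell Y W (p k) := by
  classical
  induction F using Finset.induction_on with
  | empty => simp [ell]
  | insert a s ha ih => rw [Finset.sum_insert ha, Finset.sum_insert ha, ell_add, ell_smul, ih]

lemma sum_snd_apply (F : Finset I) (g : I → ℝ) (p : I → E × (E →L[ℝ] ℝ)) (v : E) :
    (∑ k ∈ F, g k • p k).2 v = ∑ k ∈ F, g k * (p k).2 v := by
  classical
  induction F using Finset.induction_on with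
  | empty => simp
  | insert a s ha ih =>
    rw [Finset.sum_insert ha, Finset.sum_insert ha, Prod.snd_add,
      ContinuousLinearMap.add_apply, ih, Prod.smul_snd, ContinuousLinearMap.smul_apply,
      smul_eq_mul]

section
variable (Y : E) (W : E →L[ℝ] ℝ) (θ τ : ℝ)

lemma upper (hθ1 : θ < 1)
    (hII : ∀ p ∈ G, 0 ≤ (W - p.2) (Y - p.1) + 2 * (θ - 1) * (τ - nrm p.2 ^ 2 / 4))
    (p : E × (E →L[ℝ] ℝ)) (hp : p ∈ G) (r : ℝ) (hr : nrm p.2 ≤ r) :
    ell Y W p ≤ W Y + 2 * (1 - θ) * (r ^ 2 / 4 - τ) := by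
  have h1 := hII p hp
  have h2 := skew hp
  have h3 : (W - p.2) (Y - p.1) = W Y - ell Y W p := by
    rw [ContinuousLinearMap.sub_apply, map_sub, map_sub, h2]
    unfold ell; ring
  rw [h3] at h1
  have h4 : nrm p.2 ^ 2 ≤ r ^ 2 := pow_le_pow_left₀ (nrm_nonneg _) hr 2
  nlinarith

lemma ell_zero (hθ1 : θ < 1)
    (hII : ∀ p ∈ G, 0 ≤ (W - p.2) (Y - p.1) + 2 * (θ - 1) * (τ - nrm p.2 ^ 2 / 4))
    (p : E × (E →L[ℝ] ℝ)) (hp : p ∈ G) (h0 : ∀ b : C, p.2 (b, 0) = 0) : ell Y W p = 0 := by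
  have key : ∀ r : ℝ, r * ell Y W p ≤ W Y + 2 * (1 - θ) * ((∑' i, |x0 i|) ^ 2 / 4 - τ) := by
    intro r
    rw [← ell_smul]
    refine upper Y W θ τ hθ1 hII _ (G.smul_mem _ hp) _ (le_of_eq ?_)
    unfold nrm
    congr 1
    funext i
    rw [Prod.smul_snd, ContinuousLinearMap.smul_apply, h0]
    simp
  by_contra hne
  set K := W Y + 2 * (1 - θ) * ((∑' i, |x0 i|) ^ 2 / 4 - τ)
  have := key ((K + 1) / ell Y W p)
  rw [div_mul_cancel₀ _ hne] at this
  linarith

lemma upper_fin (hθ1 : θ < 1)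
    (hII : ∀ p ∈ G, 0 ≤ (W - p.2) (Y - p.1) + 2 * (θ - 1) * (τ - nrm p.2 ^ 2 / 4))
    (pa : I → E × (E →L[ℝ] ℝ)) (hpa : ∀ i, pa i ∈ G)
    (hpa' : ∀ i (b : C), (pa i).2 (b, 0) = b i)
    (F : Finset I) (q : ℝ) (i : I) :
    q * ell Y W (pa i) - ∑ k ∈ F, x0 k * ell Y W (pa k) ≤
      W Y + 2 * (1 - θ) * ((|q| + (∑' k, x0 k - ∑ k ∈ F, x0 k)) ^ 2 / 4 - τ) := by
  have hmem : q • pa i + ∑ k ∈ F, (-x0 k) • pa k ∈ G :=
    G.add_mem (G.smul_mem _ (hpa i)) (G.sum_mem fun k _ => G.smul_mem _ (hpa k))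
  have h1 : ell Y W (q • pa i + ∑ k ∈ F, (-x0 k) • pa k)
      = q * ell Y W (pa i) - ∑ k ∈ F, x0 k * ell Y W (pa k) := by
    rw [ell_add, ell_smul, ell_sum, sub_eq_add_neg, ← Finset.sum_neg_distrib]
    congr 1
    apply Finset.sum_congr rfl
    intro k _; ring
  rw [← h1]
  refine upper Y W θ τ hθ1 hII _ hmem _ ?_
  unfold nrm
  have hs1 : HasSum (fun m : I => |q| * (if m = i then (1 : ℝ) else 0)) (|q| * 1) :=
    (hasSum_ite_eq i (1 : ℝ)).mul_left _
  have hs2 : HasSum (fun m : I => if m ∈ F then 0 else x0 m) (∑' k, x0 k - ∑ k ∈ F, x0 k) := by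
    have h3 : HasSum (fun m : I => if m ∈ F then x0 m else 0) (∑ k ∈ F, x0 k) := by
      have := hasSum_sum_of_ne_finset_zero (f := fun m : I => if m ∈ F then x0 m else 0) (s := F)
        (L := SummationFilter.unconditional I) (by intro b hb; simp [hb])
      have h4 : ∑ k ∈ F, (if k ∈ F then x0 k else 0) = ∑ k ∈ F, x0 k :=
        Finset.sum_congr rfl fun k hk => by simp [hk]
      rwa [h4] at this
    have h5 := summable_x0.hasSum.sub h3
    refine h5.congr_fun ?_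
    intro m
    split_ifs <;> simp
  have hs3 := hs1.add hs2
  rw [mul_one] at hs3
  rw [← hs3.tsum_eq]
  refine Summable.tsum_le_tsum (fun m => ?_) (summable_nrm _) hs3.summable
  have h6 : (q • pa i + ∑ k ∈ F, (-x0 k) • pa k).2 (e m, 0)
      = q * (if m = i then (1 : ℝ) else 0) - (if m ∈ F then x0 m else 0) := by
    rw [Prod.snd_add, ContinuousLinearMap.add_apply, Prod.smul_snd,
      ContinuousLinearMap.smul_apply, hpa', sum_snd_apply, smul_eq_mul, e_apply]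
    have h7 : ∑ k ∈ F, -x0 k * (pa k).2 (e m, 0) = - (if m ∈ F then x0 m else 0) := by
      simp only [hpa', e_apply]
      rw [← Finset.sum_ite_eq' F m x0, ← Finset.sum_neg_distrib]
      apply Finset.sum_congr rfl
      intro k _
      split_ifs <;> ring
    rw [h7]
    have : (if i = m then (1 : ℝ) else 0) = if m = i then (1 : ℝ) else 0 := by
      simp only [eq_comm]
    rw [this]; ring
  rw [h6]
  have h8 : q * (if m = i then (1 : ℝ) else 0) - (if m ∈ F then x0 m else 0) + x0 m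
      = q * (if m = i then (1 : ℝ) else 0) + (if m ∈ F then 0 else x0 m) := by
    split_ifs <;> ring
  rw [h8]
  refine (abs_add_le _ _).trans (le_of_eq ?_)
  rw [abs_mul]
  congr 1
  · split_ifs <;> simp
  · split_ifs
    · simp
    · exact abs_of_nonneg (x0_nonneg m)

lemma tendsto_finset_sum {f : I → ℝ} (hf : Summable f) :
    Tendsto (fun F : Finset I => ∑ i ∈ F, f i) atTop (𝓝 (∑' i, f i)) := by
  have := hf.hasSum
  rwa [HasSum, SummationFilter.unconditional_filter] at this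

/-- the limit of the bounds from `T_+` -/
lemma upper_lim (hθ1 : θ < 1)
    (hII : ∀ p ∈ G, 0 ≤ (W - p.2) (Y - p.1) + 2 * (θ - 1) * (τ - nrm p.2 ^ 2 / 4))
    (pa : I → E × (E →L[ℝ] ℝ)) (hpa : ∀ i, pa i ∈ G)
    (hpa' : ∀ i (b : C), (pa i).2 (b, 0) = b i) :
    ∃ K : ℝ, (∀ i, |ell Y W (pa i)| ≤ K) ∧ ∀ (q : ℝ) (i : I),
      q * ell Y W (pa i) - ∑' k, x0 k * ell Y W (pa k) ≤
        W Y + 2 * (1 - θ) * (q ^ 2 / 4 - τ) := by
  have h := upper_fin Y W θ τ hθ1 hII pa hpa hpa'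
  have hK : ∀ i, |ell Y W (pa i)| ≤ W Y + 2 * (1 - θ) * ((1 + ∑' k, x0 k) ^ 2 / 4 - τ) := by
    intro i
    rw [abs_le]
    have h1 := h ∅ 1 i
    have h2 := h ∅ (-1) i
    simp only [Finset.sum_empty, sub_zero, abs_neg, abs_one] at h1 h2
    constructor <;> linarith
  refine ⟨_, hK, ?_⟩
  intro q i
  have hs := summable_x0_mul _ _ hK
  have t1 : Tendsto (fun F : Finset I => q * ell Y W (pa i) - ∑ k ∈ F, x0 k * ell Y W (pa k)) atTop
      (𝓝 (q * ell Y W (pa i) - ∑' k, x0 k * ell Y W (pa k))) :=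
    (tendsto_finset_sum hs).const_sub _
  have t2 : Tendsto (fun F : Finset I =>
      W Y + 2 * (1 - θ) * ((|q| + (∑' k, x0 k - ∑ k ∈ F, x0 k)) ^ 2 / 4 - τ)) atTop
      (𝓝 (W Y + 2 * (1 - θ) * ((|q| + (∑' k, x0 k - ∑' k, x0 k)) ^ 2 / 4 - τ))) := by
    have t3 := (((((tendsto_finset_sum summable_x0).const_sub (∑' k, x0 k)).const_add |q|).pow
      2).div_const 4).sub_const τ
    exact (t3.const_mul _).const_add _
  have := le_of_tendsto_of_tendsto' t1 t2 (fun F => h F q i)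
  rwa [sub_self, add_zero, sq_abs] at this

/-- the limit of the bounds from `T_-` -/
lemma lower_lim (hθ0 : 0 < θ)
    (hI : ∀ b : C, 0 ≤ W (Y - (b, 0)) + 2 * θ * (τ + phi b / 2)) (r : ℝ) (hr : 0 ≤ r) :
    r * ∑' i, |W (e i, 0) + θ * x0 i| ≤ W Y + 2 * θ * τ + θ * r ^ 2 / 2 := by
  have hQ : Summable fun i => |W (e i, 0) + θ * x0 i| := by
    refine Summable.of_nonneg_of_le (fun _ => abs_nonneg _) (fun i => ?_)
      ((summable1 W).add (summable_x0.mul_left θ))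
    calc |W (e i, 0) + θ * x0 i| ≤ |W (e i, 0)| + |θ * x0 i| := abs_add_le _ _
      _ = |W (e i, 0)| + θ * x0 i := by
        rw [abs_of_nonneg (mul_nonneg hθ0.le (x0_nonneg i))]
  have hF : ∀ F : Finset I, r * ∑ i ∈ F, |W (e i, 0) + θ * x0 i|
      ≤ W Y + 2 * θ * τ + θ * r ^ 2 / 2 := by
    intro F
    set sg : I → ℝ := fun i => r * (SignType.sign (W (e i, 0) + θ * x0 i) : ℝ) with hsg
    set b : C := ∑ i ∈ F, sg i • e i with hb
    have hnb : ‖b‖ ≤ r := by
      apply norm_sum_e_le _ _ hr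
      intro i _
      rw [hsg]
      simp only
      rw [abs_mul, abs_of_nonneg hr]
      have : |(SignType.sign (W (e i, 0) + θ * x0 i) : ℝ)| ≤ 1 := by
        rcases lt_trichotomy (W (e i, 0) + θ * x0 i) 0 with h | h | h
        · simp [sign_neg h]
        · simp [h]
        · simp [sign_pos h]
      nlinarith
    have h1 := hI b
    have h2 : W (Y - (b, 0)) = W Y - ∑ i ∈ F, sg i * W (e i, 0) := by
      rw [map_sub]
      congr 1
      have : ((b, 0) : E) = ContinuousLinearMap.inl ℝ C C b := rfl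
      rw [this, hb, map_sum, map_sum]
      apply Finset.sum_congr rfl
      intro i _
      rw [map_smul, map_smul, smul_eq_mul]; rfl
    have h3 : ∑' i, x0 i * b i = ∑ i ∈ F, x0 i * sg i := by
      rw [tsum_eq_sum (s := F)]
      · apply Finset.sum_congr rfl
        intro i hi
        rw [hb, sum_e_apply, if_pos hi]
      · intro i hi
        rw [hb, sum_e_apply, if_neg hi, mul_zero]
    have h4 : phi b ≤ r ^ 2 / 2 - ∑ i ∈ F, x0 i * sg i := by
      unfold phi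
      rw [h3]
      have : ‖b‖ ^ 2 ≤ r ^ 2 := pow_le_pow_left₀ (norm_nonneg _) hnb 2
      linarith
    have h5 : r * ∑ i ∈ F, |W (e i, 0) + θ * x0 i|
        = ∑ i ∈ F, sg i * W (e i, 0) + θ * ∑ i ∈ F, x0 i * sg i := by
      rw [Finset.mul_sum, Finset.mul_sum, ← Finset.sum_add_distrib]
      apply Finset.sum_congr rfl
      intro i _
      rw [hsg]
      simp only
      rw [← sign_mul_self (W (e i, 0) + θ * x0 i)]
      ring
    rw [h5]
    rw [h2] at h1
    nlinarith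
  exact le_of_tendsto' ((tendsto_finset_sum hQ).const_mul r) hF

end

end Pool.Agent.Helper71.Sum
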