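import Pool.Agent.Helper71.Sum.Key1

set_option autoImplicit false

open scoped ZeroAtInfty Topology
open Filter

namespace Pool.Agent.Helper71.Sum

/-- eventually in the number of the line, all the values of a `c_0` function are small -/
lemma eventually_line (f : C) {ε : ℝ} (hε : 0 < ε) : ∀ᶠ j : ℕ in atTop, ∀ n, |f (j, n)| < ε := by
  have h1 : {i | ¬ |f i| < ε}.Finite := by
    have := (tendsto_C f).eventually (Metric.ball_mem_nhds 0 hε)
    rw [Filter.eventually_cofinite] at this
    refine this.subset ?_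
    intro i hi
    simpa [Real.dist_eq] using hi
  have h2 : (Prod.fst '' {i : I | ¬ |f i| < ε}).Finite := h1.image _
  rw [← Nat.cofinite_eq_atTop]
  filter_upwards [h2.compl_mem_cofinite] with j hj n
  by_contra h
  exact hj ⟨(j, n), h, rfl⟩

/-- No point with last coordinate in `(-1, 1)` is monotonically related to the set `T_0`. -/
theorem key (Y : E) (W : E →L[ℝ] ℝ) (θ τ : ℝ) (hθ0 : 0 < θ) (hθ1 : θ < 1)
    (hI : ∀ b : C, 0 ≤ W (Y - (b, 0)) + 2 * θ * (τ + phi b / 2))
    (hII : ∀ p ∈ G, 0 ≤ (W - p.2) (Y - p.1) + 2 * (θ - 1) * (τ - nrm p.2 ^ 2 / 4)) : False := by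
  have hex : ∀ i : I, ∃ p ∈ G, ∀ b : C, p.2 (b, 0) = b i := fun i => exists_pa i.1 i.2
  choose pa hpa hpa' using hex
  obtain ⟨K, hK, hA⟩ := upper_lim Y W θ τ hθ1 hII pa hpa hpa'
  have hB := lower_lim Y W θ τ hθ0 hI
  set ξ : I → ℝ := fun i => ell Y W (pa i) with hξ
  set Q : I → ℝ := fun i => W (e i, 0) + θ * x0 i with hQ
  set N : ℝ := ∑' i, |Q i| with hN
  have hN0 : 0 ≤ N := tsum_nonneg fun _ => abs_nonneg _
  have hQs : Summable fun i => |Q i| := by
    refine Summable.of_nonneg_of_le (fun _ => abs_nonneg _) (fun i => ?_)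
      ((summable1 W).add (summable_x0.mul_left θ))
    calc |Q i| ≤ |W (e i, 0)| + |θ * x0 i| := abs_add_le _ _
      _ = |W (e i, 0)| + θ * x0 i := by
        rw [abs_of_nonneg (mul_nonneg hθ0.le (x0_nonneg i))]
  set M : ℝ := W Y + θ * ∑' k, x0 k * ξ k with hM
  have hr0 : 0 ≤ N / θ := div_nonneg hN0 hθ0.le
  have hNr : N = θ * (N / θ) := by field_simp
  have hBr := hB (N / θ) hr0
  have hcomb : ∀ (q : ℝ) (i : I), (1 - θ) * θ * (N / θ) ^ 2 / 2 + θ * (q * ξ i)
      ≤ M + (1 - θ) * θ * q ^ 2 / 2 := by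
    intro q i
    have h1 := mul_le_mul_of_nonneg_left (hA q i) hθ0.le
    have h2 := mul_le_mul_of_nonneg_left hBr (sub_nonneg.2 hθ1.le)
    have h3 : (1 - θ) * (N / θ * ∑' i, |W (e i, 0) + θ * x0 i|)
        = (1 - θ) * θ * (N / θ) ^ 2 := by
      have : ∑' i, |W (e i, 0) + θ * x0 i| = θ * (N / θ) := hNr
      rw [this]; ring
    rw [h3] at h2
    rw [hM]
    linarith
  have hfin1 : ∀ i, N * |ξ i| ≤ M := by
    intro i
    have h1 := hcomb (N / θ) i
    have h2 := hcomb (-(N / θ)) i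
    have h3 : N * |ξ i| = max (N * ξ i) (N * (-ξ i)) := by
      rw [← mul_max_of_nonneg _ _ hN0]; rfl
    have h4 : θ * (N / θ * ξ i) = N * ξ i := by field_simp
    have h5 : θ * (-(N / θ) * ξ i) = N * (-ξ i) := by field_simp
    rw [h3]
    rw [h4] at h1
    rw [h5] at h2
    apply max_le
    · linarith
    · nlinarith
  have hfin2 : (1 - θ) * θ * (N / θ) ^ 2 / 2 ≤ M := by
    have h1 := hcomb 0 (0, 0)
    nlinarith
  -- the relations
  set ξe : ℕ → ℕ → ℝ := fun j k => Nat.casesOn k 0 (fun n => ξ (j, n)) with hξe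
  have hξe0 : ∀ j, ξe j 0 = 0 := fun j => rfl
  have hξe1 : ∀ j n, ξe j (n + 1) = ξ (j, n) := fun j n => rfl
  have hpe : ∀ j k, ∃ p ∈ G, (∀ b : C, p.2 (b, 0) = E1 j k (b, 0)) ∧ ell Y W p = ξe j k := by
    intro j k
    cases k with
    | zero => exact ⟨0, G.zero_mem, fun b => by simp, by simp [ell, hξe0]⟩
    | succ n => exact ⟨pa (j, n), hpa _, fun b => by rw [hpa', E1_succ], rfl⟩
  choose pe hpeG hpe2 hpel using hpe
  set x : ℕ → ℕ → ℝ := fun j k => ξe j k - E1 j k Y with hx
  set z : ℕ → ℕ → ℝ := fun j k => E2 j k Y with hz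
  set w0 : I → ℝ := fun i => W (e i, 0) with hw0
  set w1 : I → ℝ := fun i => W (0, e i) with hw1
  have hrel1 : ∀ j n, w1 (j, n) = x j (n + 2) - x j (n + 1) := by
    intro j n
    have h := ell_zero Y W θ τ hθ1 hII (gH (j, n) + ((-1 : ℝ) • pe j (n + 2) + pe j (n + 1)))
      (G.add_mem (gH_mem _) (G.add_mem (G.smul_mem _ (hpeG _ _)) (hpeG _ _))) (by
        intro b
        simp only [Prod.snd_add, Prod.smul_snd, ContinuousLinearMap.add_apply,
          ContinuousLinearMap.smul_apply, hpe2, gH, dh, ContinuousLinearMap.sub_apply,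
          smul_eq_mul]
        ring)
    rw [ell_add, ell_add, ell_smul, hpel, hpel] at h
    have h2 : ell Y W (gH (j, n)) = E1 j (n + 2) Y - E1 j (n + 1) Y + w1 (j, n) := rfl
    rw [h2] at h
    simp only [hx]
    linarith
  have hrel0 : ∀ j n, w0 (j, n) = kap j / 2 * (x j (n + 2) - x j n) - (z j (n + 1) - z j n) := by
    intro j n
    have h := ell_zero Y W θ τ hθ1 hII
      (gG (j, n) + ((-(kap j / 2)) • pe j (n + 2) + (kap j / 2) • pe j n))
      (G.add_mem (gG_mem _) (G.add_mem (G.smul_mem _ (hpeG _ _)) (G.smul_mem _ (hpeG _ _)))) (by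
        intro b
        simp only [Prod.snd_add, Prod.smul_snd, ContinuousLinearMap.add_apply,
          ContinuousLinearMap.smul_apply, hpe2, gG, dg, ContinuousLinearMap.sub_apply,
          smul_eq_mul, E2_fst]
        ring)
    rw [ell_add, ell_add, ell_smul, ell_smul, hpel, hpel] at h
    have h2 : ell Y W (gG (j, n)) = kap j / 2 * (E1 j (n + 2) Y - E1 j n Y)
        + (E2 j (n + 1) Y - E2 j n Y) + w0 (j, n) := rfl
    rw [h2] at h
    simp only [hx, hz]
    linarith
  have hx0 : ∀ j, x j 0 = 0 := fun j => by simp [hx, hξe0]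
  have hz0 : ∀ j, z j 0 = 0 := fun j => by simp [hz]
  have hx1 : ∀ j n, x j (n + 1) = ξ (j, n) - Y.1 (j, n) := fun j n => rfl
  have hz1 : ∀ j n, z j (n + 1) = Y.2 (j, n) := fun j n => rfl
  have hzt : ∀ j, Tendsto (z j) atTop (𝓝 0) := by
    intro j
    have hinj : Function.Injective (fun n : ℕ => ((j, n) : I)) := by
      intro a b h
      simpa using h
    have h := (tendsto_C Y.2).comp hinj.tendsto_cofinite
    rw [Nat.cofinite_eq_atTop] at h
    exact (tendsto_add_atTop_iff_nat 1).1 h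
  -- summability
  have hw0s : Summable fun i => |w0 i| := summable1 W
  have hw1s : Summable fun i => |w1 i| := summable2 W
  have hbd : ∀ (f g : I → ℝ) (K : ℝ), (∀ i, |f i| ≤ K) → (Summable fun i => |g i|) →
      Summable fun i => f i * g i := by
    intro f g K hf hg
    refine Summable.of_norm_bounded (hg.mul_left K) (fun i => ?_)
    rw [Real.norm_eq_abs, abs_mul]
    exact mul_le_mul_of_nonneg_right (hf i) (abs_nonneg _)
  have hξQ : Summable fun i => ξ i * Q i := hbd ξ Q K hK hQs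
  have hξw0 : Summable fun i => ξ i * w0 i := hbd ξ w0 K hK hw0s
  have hy0 : HasSum (fun i => Y.1 i * w0 i) (W (Y.1, 0)) := hasSum1 W Y.1
  have hy1 : HasSum (fun i => Y.2 i * w1 i) (W (0, Y.2)) := hasSum2 W Y.2
  have hWY : W Y = W (Y.1, 0) + W (0, Y.2) := by
    rw [← map_add]; congr 1; ext <;> simp
  have hxs := (summable_x0_mul ξ K hK).hasSum
  set f : I → ℝ := fun i => (ξ i - Y.1 i) * w0 i - Y.2 i * w1 i with hf
  have hfs : Summable f := by
    have := (hξw0.sub hy0.summable).sub hy1.summable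
    refine this.congr fun i => ?_
    simp only [hf]; ring
  have hMV : M = ∑' i, ξ i * Q i - ∑' i, f i := by
    have h1 := ((hy0.add hy1).add (hxs.mul_left θ))
    rw [← hWY] at h1
    have h2 := hξQ.hasSum.sub hfs.hasSum
    refine h1.unique ?_
    refine h2.congr_fun fun i => ?_
    simp only [hf, hQ]; ring
  -- lines
  have hline : ∀ j, ∃ t : ℝ, (∑' n, f (j, n) = kap j / 2 * t ^ 2) ∧
      (∑' n, w0 (j, n) = kap j / 2 * (2 * t - x j 1)) ∧
      (t = 0 → ∀ n, |x j (n + 1)| ≤ ∑' n, |w1 (j, n)|) := by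
    intro j
    exact line (kap j) (x j) (z j) (fun n => w0 (j, n)) (fun n => w1 (j, n)) (hx0 j) (hz0 j)
      (hrel1 j) (hrel0 j) (hzt j) (hw1s.prod_factor j) (hw0s.of_abs.prod_factor j)
      (hfs.prod_factor j)
  choose t ht1 ht2 ht3 using hline
  have hV : ∑' i, f i = ∑' j, kap j / 2 * t j ^ 2 := by
    rw [hfs.tsum_prod]
    exact tsum_congr ht1
  have hVs : Summable fun j => kap j / 2 * t j ^ 2 := by
    have := hfs.prod
    exact this.congr fun j => ht1 j
  have hVn : ∀ j, 0 ≤ kap j / 2 * t j ^ 2 := fun j => by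
    have := kap_pos j; positivity
  have hV0 : 0 ≤ ∑' i, f i := by rw [hV]; exact tsum_nonneg hVn
  -- the sup
  set S : ℝ := ⨆ i, |ξ i| with hS
  have hbdd : BddAbove (Set.range fun i => |ξ i|) := ⟨K, by rintro _ ⟨i, rfl⟩; exact hK i⟩
  have hle : ∀ i, |ξ i| ≤ S := fun i => le_ciSup hbdd i
  have hS0 : 0 ≤ S := (abs_nonneg _).trans (hle (0, 0))
  have hNS : N * S ≤ M := by
    rw [hS, Real.mul_iSup_of_nonneg hN0]
    exact ciSup_le hfin1
  have hgs : Summable fun i => S * |Q i| - ξ i * Q i := (hQs.mul_left S).sub hξQ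
  have hgn : ∀ i, 0 ≤ S * |Q i| - ξ i * Q i := by
    intro i
    have : ξ i * Q i ≤ S * |Q i| := calc
      ξ i * Q i ≤ |ξ i * Q i| := le_abs_self _
      _ = |ξ i| * |Q i| := abs_mul _ _
      _ ≤ S * |Q i| := mul_le_mul_of_nonneg_right (hle i) (abs_nonneg _)
    linarith
  have hgsum : ∑' i, (S * |Q i| - ξ i * Q i) = S * N - ∑' i, ξ i * Q i := by
    rw [(hQs.mul_left S).tsum_sub hξQ, tsum_mul_left]
  have hg0 : 0 ≤ ∑' i, (S * |Q i| - ξ i * Q i) := tsum_nonneg hgn
  have hVz : ∑' i, f i = 0 := by nlinarith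
  have hgz : ∑' i, (S * |Q i| - ξ i * Q i) = 0 := by nlinarith
  have hgall : ∀ i, S * |Q i| - ξ i * Q i = 0 := by
    have h1 := hgs.hasSum
    rw [hgz] at h1
    have h2 := (hasSum_zero_iff_of_nonneg hgn).1 h1
    intro i
    exact congrFun h2 i
  have htz : ∀ j, t j = 0 := by
    have h1 := hVs.hasSum
    rw [← hV, hVz] at h1
    have h2 := (hasSum_zero_iff_of_nonneg hVn).1 h1
    intro j
    have h3 : kap j / 2 * t j ^ 2 = 0 := congrFun h2 j
    have h4 := kap_pos j
    have h5 : t j ^ 2 = 0 := by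
      rcases mul_eq_zero.1 h3 with h | h
      · linarith
      · exact h
    exact pow_eq_zero_iff (two_ne_zero) |>.1 h5
  have hUt : Tendsto (fun j => ∑' n, |w1 (j, n)|) atTop (𝓝 0) := hw1s.prod.tendsto_atTop_zero
  have hev : ∀ᶠ j : ℕ in atTop, ∀ n, Q (j, n) = 0 := by
    rcases hS0.eq_or_lt with hS0' | hSpos
    · -- all `ξ` vanish
      have hξ0 : ∀ i, ξ i = 0 := fun i => by
        have := hle i
        rw [← hS0'] at this
        exact abs_nonpos_iff.1 this
      have hM0 : M = 0 := by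
        rw [hMV, hVz]
        simp [hξ0]
      have h1 : (N / θ) ^ 2 ≤ 0 := by
        rw [hM0] at hfin2
        have h2 : 0 < (1 - θ) * θ := mul_pos (sub_pos.2 hθ1) hθ0
        by_contra h3
        push Not at h3
        have := mul_pos h2 h3
        linarith
      have h2 : N / θ = 0 := by
        have := le_antisymm h1 (sq_nonneg _)
        exact pow_eq_zero_iff (two_ne_zero) |>.1 this
      have h3 : N = 0 := by rw [hNr, h2, mul_zero]
      have h4 := hQs.hasSum
      rw [← hN, h3] at h4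
      have h5 := (hasSum_zero_iff_of_nonneg fun i => abs_nonneg (Q i)).1 h4
      exact Eventually.of_forall fun j n => abs_eq_zero.1 (congrFun h5 (j, n))
    · have h1 := eventually_line Y.1 (half_pos hSpos)
      have h2 := hUt.eventually (gt_mem_nhds (half_pos hSpos))
      filter_upwards [h1, h2] with j hj1 hj2 n
      have h3 : |ξ (j, n)| < S := by
        have h4 := (ht3 j (htz j) n).trans_lt hj2
        rw [hx1] at h4
        have h5 : ξ (j, n) = (ξ (j, n) - Y.1 (j, n)) + Y.1 (j, n) := by ring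
        rw [h5]
        calc _ ≤ |ξ (j, n) - Y.1 (j, n)| + |Y.1 (j, n)| := abs_add_le _ _
          _ < S / 2 + S / 2 := add_lt_add h4 (hj1 n)
          _ = S := by ring
      by_contra hne
      have h4 := hgall (j, n)
      have h5 : 0 < |Q (j, n)| := abs_pos.2 hne
      have h6 : ξ (j, n) * Q (j, n) ≤ |ξ (j, n)| * |Q (j, n)| := by
        rw [← abs_mul]; exact le_abs_self _
      have h7 := mul_lt_mul_of_pos_right h3 h5
      linarith
  have h1 := hUt.eventually (gt_mem_nhds (show (0 : ℝ) < 2 * θ by linarith))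
  obtain ⟨j, hj1, hj2⟩ := (hev.and h1).exists
  have h2 := ht2 j
  have h3 : ∑' n, w0 (j, n) = -θ * kap j := by
    have h4 : ∀ n, w0 (j, n) = -θ * x0 (j, n) := fun n => by
      have := hj1 n
      simp only [hQ] at this
      simp only [hw0]
      linarith
    rw [tsum_congr h4, tsum_mul_left]
    congr 1
    rw [tsum_eq_single 0]
    · simp [x0]
    · intro n hn
      simp [x0, hn]
  rw [h3, htz j] at h2
  have h4 : x j 1 = 2 * θ := by
    have := kap_pos j
    have h5 : kap j * (x j 1 - 2 * θ) = 0 := by linarith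
    rcases mul_eq_zero.1 h5 with h | h
    · linarith
    · linarith
  have h5 := (ht3 j (htz j) 0).trans_lt hj2
  rw [zero_add, h4, abs_of_pos (by linarith)] at h5
  exact lt_irrefl _ h5

end Pool.Agent.Helper71.Sum
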